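import Pool.Agent.TH706.PC.Circ

/-!
# The circuit value problem needs linear memory in linear time, even with a stack

The first inclusion of the hierarchy is `LOGSPACE ⊆ P`. The circuit value problem is complete for
`P`; so the inclusion is strict if and only if this problem is not in `LOGSPACE`. Here an instance
is a circuit given by the records of its `M` gates (truth table and two names). The programs may
read the record of any gate in one step, in any order and repeatedly; they have, in addition to
`M / D` bits of memory (`2 ^ (M / D)` nodes), a stack of unlimited height, and their number of
steps is not bounded. Only the reads are counted: there are at most `k M`, that is, `k` times the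
number of the letters of the input.

For each constant `k` there is a constant `D` such that this is not enough, even for randomised
programs that err only on one side, and even if the right answer is found with probability
`2 ^ (- M / D)` only; this holds for both sides. (With polynomially many nodes and without the bound
on the reads such programs decide all of `P`.)

The proof. The quadratic forms of the starting library `Pool.Agent.W952` are hard for programs with
a stack and `2 k' n` queries (blocks of computations with a stack: `Pool.Agent.W896.PD`; rectangles:
`Pool.Agent.H554R2.Lin`; Ajtai; Beame, Saks, Sun and Vee), but circuits for them have `C n` gates with
a constant `C` that grows with `k'`. Each variable is replaced by the parity of `K > C` new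
variables. Then the circuits have `O (n K)` gates, with an absolute constant, and the lower bound
survives for `k' n K` queries: if all new variables of a block but a random one are replaced by
random constants then on average only one of `K` queries remains.
-/

set_option autoImplicit false

namespace Pool.Agent.Results.MP_47ff19_lc.CircuitValueStack

open Pool.Agent.TH706.PC
open Pool.Agent.TH706.LS (SP)

/-- For `b = true`, `false` and every `k` there is a constant `D` such that for all `M ≥ D` and all
finite nonempty families of deterministic programs `P i` with a stack, with fewer than
`2 ^ (M / D)` nodes each, whose inputs are circuits given by the records of `M` gates: if no `P i`
gives the answer `b` within `k M` reads of gate records on a circuit whose value is not `b`, then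
for some circuit with the value `b` less than a `2 ^ (- M / D)` fraction of the `P i` gives the
answer `b` within `k M` reads. -/
theorem result (b : Bool) (k : ℕ) : ∃ D : ℕ, 0 < D ∧ ∀ M ≥ D,
    ∀ (I : Type) [Fintype I] [Nonempty I] (P : I → SP (Fin M) (Gate M)),
    (∀ i, Fintype.card (P i).State < 2 ^ (M / D)) →
    (∀ w, ¬ HasValue w b → ∀ i, ¬ (P i).Answers w (k * M) b) →
    ∃ w, HasValue w b ∧
      2 ^ (M / D) * Nat.card {i : I // (P i).Answers w (k * M) b} < Nat.card I :=
  circ_main b k

end Pool.Agent.Results.MP_47ff19_lc.CircuitValueStack
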