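import Pool.Agent.TH680.LV.Join
import Pool.Agent.TH680.DT.Empty

/-!
# Which random oracles separate `TIME 2_m^POL` and `SPACE 2_m^POL`?

These are the inclusions `C_{2m+1} ⊆ C_{2m+2}` of the chain (`m = 0`: `P ⊆ PSPACE`; `m = 1`:
`EXP ⊆ EXPSPACE`). Relative to an oracle `A`, `IsTime m A` is the class `TIME 2_m^POL` and
`IsSpace m A` is the class `SPACE 2_m^POL`: the languages that are in `P^A` and in `PSPACE^A` when
the input `x` is padded with `2_m^{p(|x|)}` ones, for some polynomial `p`. Equality on one level
implies, by padding, equality on all higher levels; the separation on a high level is stronger than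
the one on a low level.

Let every string of length `n` be in the random oracle `A` with probability `q n`, independently,
where `q` is an arbitrary function (`rand q` is the distribution of `A`), and let
`rare q n = 2 ^ n * min (q n) (1 - q n)`, the expected number of strings of length `n` for which
`A` has the less probable value.

(1) If the series `∑ rare q n` diverges then, for almost all `A`, `TIME 2_m^POL ≠ SPACE 2_m^POL`
relative to `A` for all levels `m`. Moreover for every oracle `Q` the same holds relative to the
disjoint union `join Q A` of `Q` and `A`, for almost all `A`.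

(2) If the series converges then there is an oracle `Q` such that, for almost all `A`, relative to
`join Q A`, `TIME 2_m^POL = SPACE 2_m^POL` for all levels `m`.

(3) If the series converges then, for almost all `A`, the classes `TIME 2_m^POL` and
`SPACE 2_m^POL`, for all `m`, are the same relative to `A` and relative to the oracle `common q` of
the more probable values. So, if `common q` is in `P` (for example if `q n ≤ 1 / 2` for all `n`),
for almost all `A`, for all `m`: `C_{2m+1} ≠ C_{2m+2}` relative to `A` if and only if the series
diverges or `C_{2m+1} ≠ C_{2m+2}`.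

So the threshold for the density is the same for all the odd inclusions of the chain, although the
set of the oracles that make the classes equal grows with `m` (see `GaugeThreshold` for its size).

Proof of (1). The language consists of the strings `x` for which the number of strings in the oracle
that are shorter than `2 |x| + 1 + 2_m^|x|` is odd. A time machine with inputs `1, 11, 111, ...` asks, in
all its computations up to the input `1^n`, fewer than `2_m^poly(n)` questions, hence only a
negligible part of the strings of length at least `2_m^(n-1)`. Given all its answers, and the whole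
oracle up to this length, the parity of the bits at the lengths up to `2_m^n` is uncertain: either
value has the conditional probability at least `(1 - exp (- S)) / 2`, where `S` is the sum of
`rare q` over these lengths. So the probability that it is right for all large `n` is zero.
-/

set_option autoImplicit false

namespace Pool.Agent.Results.MP_47ff19_lc.DensityThreshold

open MeasureTheory Pool.Agent.NPC Pool.Agent.H620R2.Gauge H529R3.Lev
open Pool.Agent.W900.IE (indep)

/-- The distribution of the random oracle: the strings `x` are in the oracle with probability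
`q |x|`, independently. -/
noncomputable def rand (q : ℕ → unitInterval) : Measure Oracle := indep (fun x => q x.length)

/-- The expected number of the strings of length `n` for which the random oracle has the less
probable value. -/
noncomputable def rare (q : ℕ → unitInterval) (n : ℕ) : ℝ := 2 ^ n * min (q n : ℝ) (1 - q n)

/-- The oracle of the more probable values. -/
noncomputable def common (q : ℕ → unitInterval) : Oracle := fun x =>
  decide ((1 / 2 : ℝ) < q x.length)

/-- The disjoint union of the oracles `Q` and `A`: `0 z` is in it if `z` is in `Q`, and `1 z` is in it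
if `z` is in `A`. -/
def join (Q A : Oracle) : Oracle
  | [] => false
  | false :: z => Q z
  | true :: z => A z

/-- The empty oracle. -/
def empty : Oracle := fun _ => false

theorem join_eq (Q A : Oracle) : join Q A = TH680.OD.join Q A := by
  funext x
  rcases x with _ | ⟨b, z⟩
  · rfl
  · cases b <;> rfl

theorem rare_eq (q : ℕ → unitInterval) : W900.IE.dev (TH680.DT.pq q) = rare q := by
  funext n
  unfold W900.IE.dev TH680.DT.pq rare
  have h : ∀ v : Fin n → Bool, min (q (List.ofFn v).length : ℝ) (1 - q (List.ofFn v).length) =
      min (q n : ℝ) (1 - q n) := fun v => by rw [List.length_ofFn]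
  rw [Finset.sum_congr rfl fun v _ => h v, Finset.sum_const, nsmul_eq_mul, Finset.card_univ]
  simp

/-- **The exact threshold for the density of a random oracle that separates time and space on all
levels.** -/
theorem result (q : ℕ → unitInterval) :
    (¬ Summable (rare q) →
      (∀ᵐ A ∂(rand q), ∀ m, ∃ L, IsSpace m A L ∧ ¬ IsTime m A L) ∧
      ∀ Q, ∀ᵐ A ∂(rand q), ∀ m, ∃ L, IsSpace m (join Q A) L ∧ ¬ IsTime m (join Q A) L) ∧
    (Summable (rare q) → ∃ Q, ∀ᵐ A ∂(rand q), ∀ m L,
      IsSpace m (join Q A) L ↔ IsTime m (join Q A) L) ∧
    (Summable (rare q) → ∀ᵐ A ∂(rand q), ∀ m L,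
      (IsTime m A L ↔ IsTime m (common q) L) ∧ (IsSpace m A L ↔ IsSpace m (common q) L)) ∧
    (IsP empty {x | common q x = true} → ∀ᵐ A ∂(rand q), ∀ m,
      ((∃ L, IsSpace m A L ∧ ¬ IsTime m A L) ↔
        (¬ Summable (rare q) ∨ ∃ L, IsSpace m empty L ∧ ¬ IsTime m empty L))) := by
  simp only [join_eq]
  have h1 : ¬ Summable (rare q) → ∀ᵐ A ∂(rand q), ∀ m, ∃ L, IsSpace m A L ∧ ¬ IsTime m A L := by
    intro h
    rw [← rare_eq] at h
    filter_upwards [TH680.LV.ae_sep (TH680.LV.spread_pq q) h] with A hA m
    exact ⟨_, hA m⟩
  have h2 : Summable (rare q) → ∀ᵐ A ∂(rand q), Poly (fun x => (A x ^^ common q x)) := by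
    intro h
    rw [← rare_eq] at h
    exact TH680.DT.ae_same h
  refine ⟨fun h => ⟨h1 h, fun Q => ?_⟩, fun h => ?_, fun h => ?_, fun hq => ?_⟩
  · rw [← rare_eq] at h
    filter_upwards [TH680.LV.ae_sep_join h Q] with A hA m
    exact ⟨_, hA m⟩
  · obtain ⟨Q, hQ⟩ := TH680.LV.exists_above (C := common q) (fun x y hxy => by
      unfold common
      rw [hxy])
    refine ⟨Q, ?_⟩
    filter_upwards [h2 h] with A hA m L
    have h3 : ∀ x, TH680.OD.join Q (common q) x = (TH680.OD.join Q A x ^^
        (TH680.OD.join Q A x ^^ TH680.OD.join Q (common q) x)) := fun x => by
      cases TH680.OD.join Q A x <;> cases TH680.OD.join Q (common q) x <;> rfl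
    have h4 := TH680.LV.same_levels (TH680.LV.poly_join hA Q) h3 m L
    rw [h4.1, h4.2]
    exact TH680.LV.all_levels hQ m L
  · filter_upwards [h2 h] with A hA m L
    have h3 : ∀ x, common q x = (A x ^^ (A x ^^ common q x)) := fun x => by
      cases A x <;> cases common q x <;> rfl
    exact TH680.LV.same_levels hA h3 m L
  · have hc : Poly (common q) := by
      obtain ⟨V, hV, hL⟩ := hq
      have h3 := TH680.DT.poly_of_isFP_empty hV
      refine (Poly.decide_eq h3 (NPC.Poly.const [true])).congr fun x => ?_
      have h4 := hL x
      rw [Set.mem_ofPred_eq] at h4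
      rw [Bool.eq_iff_iff, h4, decide_eq_true_eq]
    by_cases h : Summable (rare q)
    · filter_upwards [h2 h] with A hA m
      have hAP : Poly A := (Poly.xor hA hc).congr fun x => by
        cases A x <;> cases common q x <;> rfl
      have h3 : ∀ x, empty x = (A x ^^ A x) := fun x => by unfold empty; cases A x <;> rfl
      have h4 := fun L => TH680.LV.same_levels hAP h3 m L
      constructor
      · rintro ⟨L, hL, hL'⟩
        exact Or.inr ⟨L, (h4 L).2.1 hL, fun h' => hL' ((h4 L).1.2 h')⟩
      · rintro (h' | ⟨L, hL, hL'⟩)
        · exact absurd h h'
        · exact ⟨L, (h4 L).2.2 hL, fun h' => hL' ((h4 L).1.1 h')⟩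
    · filter_upwards [h1 h] with A hA m
      exact ⟨fun _ => Or.inl h, fun _ => hA m⟩

end Pool.Agent.Results.MP_47ff19_lc.DensityThreshold
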