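import Pool.Agent.W901.NU.ShB
import Pool.Agent.W901.NU.ClsC

/-!
# `PSPACE = EXPTIME` and the prediction of answers: the exact threshold is `√ (log m)`

This is the case `j = 2` of the chain: `C₂ = PSPACE` (`InPSPACE`, polynomial space on Mathlib's
`Turing.FinTM2` machines) and `C₃ = EXPTIME` (`InEXPTIME`, time `2 ^ p(n)` on `Turing.FinTM2`
machines). `EXPHard` is hardness for `EXPTIME` under polynomial-time many-one reductions.

A set `A` is `(f, ε)`-predictable in `PSPACE` (`PredIn InPSPACE f ε A`) if some function `g` with
values of polynomial length and graph in `PSPACE` computes, for every nonempty list of `m` questions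
of length at most `m ^ ε` about membership in `A` and for some hint of `O(log n)` bits, which may
depend on the list in any way, predictions for a nonempty subset of `s` of the questions such that
the number of right predictions and the number of wrong predictions differ by at least `f m * √ s`.
It is fully `f`-predictable in `PSPACE` if there are, without hints, such predictions for all
questions and all lists of questions of any length.

The theorem, for `ε > 0` and functions `f` with `f m ≤ √ m`.

* If `f m / √ (log m)` tends to infinity then `PSPACE = EXPTIME` iff some `EXPTIME`-hard set is
  `(f, ε)`-predictable in `PSPACE` iff all sets in `EXPTIME` are fully `f`-predictable in `PSPACE`.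
* If `f m ≤ c √ (log m)` for some constant `c` then every set whatsoever is `(f, ε)`-predictable in
  `PSPACE`.

Proof of the first part. Online learning (the weighted vote of the prediction vectors for all hints,
with learning rates `r / (8 m)`) turns predictions with an advantage above the threshold into a
program with a correlation of at least `1 / m` with membership in `A` for random strings, for every
distribution on the strings of a given length; boosting gives an advice string of polynomial length
with which all questions up to a given length are answered correctly in `PSPACE`. For the nodes of
the computation of an exponential-time machine one guesses an advice string and checks in polynomial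
space that it is locally consistent at every node. Local consistency implies correctness.
-/

set_option autoImplicit false

namespace Pool.Agent.Results.MP_47ff19_lc.ExactThreshold

open Filter Pool.Agent.NPC Pool.Agent.H623R2.PS Pool.Agent.W901.NU
open Pool.Agent.H820R2.SS (InEXPTIME)

/-- **The threshold law for polynomial space and exponential time.** -/
theorem result (f : ℕ → ℝ) (ε : ℝ) (hε : 0 < ε) (hf : ∀ m : ℕ, 1 ≤ m → f m ≤ Real.sqrt m) :
    (Tendsto (fun m : ℕ => f m / Real.sqrt (Real.log m)) atTop atTop → List.TFAE
      [∀ L : Set (List Bool), InEXPTIME L → InPSPACE L,
        ∃ A : Set (List Bool), EXPHard A ∧ PredIn InPSPACE f ε A,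
        ∀ A : Set (List Bool), InEXPTIME A → FullyPredIn InPSPACE f A]) ∧
    (∀ c : ℝ, (∀ m : ℕ, 1 ≤ m → f m ≤ c * Real.sqrt (Real.log m)) →
      ∀ A : Set (List Bool), PredIn InPSPACE f ε A) :=
  ⟨fun h => class_law cl_pspace (fun A hA hA' => exp_sub_of_hasAdv cl_pspace A hA hA')
    node_exp_hard node_exp hε hf h, fun _ h A => predIn_of_le cl_pspace hf h A⟩

end Pool.Agent.Results.MP_47ff19_lc.ExactThreshold
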