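import Pool.Agent.H529R3.Lev.Main

/-!
# How many oracles make `TIME 2_m^POL` and `SPACE 2_m^POL` equal?

These are the inclusions `C_{2m+1} ⊆ C_{2m+2}` of the chain (`m = 0`: `P ⊆ PSPACE`; `m = 1`:
`EXP ⊆ EXPSPACE`). Relative to an oracle `A`, `IsTime m A` is the class `TIME 2_m^POL` and
`IsSpace m A` is the class `SPACE 2_m^POL`: the languages that are in `P^A` and in `PSPACE^A` when
the input `x` is padded with `2_m^{p(|x|)}` ones, for some polynomial `p`.

Equality on one level implies, by padding, equality on all higher levels. How often does the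
equality hold for the first time on the level `m`? For every `m` and every gauge `f`, each of the
following sets of oracles is a null set for `f` if and only if for every `ε > 0` there are
infinitely many `N` with `f N ≤ 2 ^ ((log ... log N) ^ ε)` (`m + 1` logarithms):

* the oracles `A` such that `TIME 2_m^POL = SPACE 2_m^POL` relative to `A`;
* the oracles `A` such that `TIME 2_m^POL = SPACE 2_m^POL` relative to `A` and
  `TIME 2_i^POL ≠ SPACE 2_i^POL` relative to `A` for all `i < m`;
* every set between the set of the oracles `A` such that every language in `SPACE 2_m^POL` is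
  reducible to `A` in time `2_m^POL` and for all `i < m` some language in `SPACE 2_i^POL` is not in
  the hierarchy over `TIME 2_i^POL` with polynomial advice, and the set of the oracles `A` such that
  `SPACE 2_m^POL` is contained in the hierarchy over `TIME 2_m^POL` with polynomial advice.

(The theorem `exact_level` is in the library folder `Pool/Agent/H529R3/Lev` of the starting
repository; it had not been handed in. The case `m = 0` is the starting hand-in
MP_f404b1_lc/GaugeThreshold.)
-/

set_option autoImplicit false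

namespace Pool.Agent.Results.MP_47ff19_lc.GaugeThreshold

open Pool.Agent.NPC Pool.Agent.H620R2.Gauge H529R3.Lev Filter

/-- **The exact gauge size of the oracles for which the odd inclusions of the chain are
equalities.** -/
theorem result (m : ℕ) (f : ℕ → ℝ) :
    (∀ O : Set Oracle,
      (∀ A : Oracle, (∀ L, IsSpace m A L → ReducesTime m A L) →
        (∀ i < m, ∃ L, IsSpace i A L ∧ ¬ IsTHpoly i A L) → A ∈ O) →
      (∀ A ∈ O, ∀ L, IsSpace m A L → IsTHpoly m A L) →
      (Null f O ↔ ∀ ε : ℝ, 0 < ε → ∃ᶠ N : ℕ in atTop,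
        f N ≤ 2 ^ ((Real.logb 2)^[m + 1] (N : ℝ)) ^ ε)) ∧
    (Null f {A : Oracle | ∀ L, IsTime m A L ↔ IsSpace m A L} ↔
      ∀ ε : ℝ, 0 < ε → ∃ᶠ N : ℕ in atTop,
        f N ≤ 2 ^ ((Real.logb 2)^[m + 1] (N : ℝ)) ^ ε) ∧
    (Null f {A : Oracle | (∀ L, IsTime m A L ↔ IsSpace m A L) ∧
        ∀ i < m, ¬ ∀ L, IsTime i A L ↔ IsSpace i A L} ↔
      ∀ ε : ℝ, 0 < ε → ∃ᶠ N : ℕ in atTop,
        f N ≤ 2 ^ ((Real.logb 2)^[m + 1] (N : ℝ)) ^ ε) := by
  have key := exact_level m f
  have hup : ∀ A : Oracle, (∀ L, IsTime m A L ↔ IsSpace m A L) →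
      ∀ L, IsSpace m A L → IsTHpoly m A L :=
    fun A hA L hL => ((hA L).2 hL).isTH.isTHpoly
  have hlow : ∀ A : Oracle, (∀ L, IsSpace m A L → ReducesTime m A L) →
      ∀ L, IsTime m A L ↔ IsSpace m A L :=
    fun A hA L => ⟨fun h => h.isSpace, fun h => (hA L h).isTime⟩
  refine ⟨key, key _ (fun A hA _ => hlow A hA) (fun A hA => hup A hA),
    key _ (fun A hA h => ⟨hlow A hA, fun i hi hcon => ?_⟩) (fun A hA => hup A hA.1)⟩
  obtain ⟨L, h1, h2⟩ := h i hi
  exact h2 ((hcon L).2 h1).isTH.isTHpoly

end Pool.Agent.Results.MP_47ff19_lc.GaugeThreshold
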